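import Mathlib
import Pool.Agent.H12.TM

namespace Pool.Agent.Results.MP_b1aeef_nt.Maximal

open Polynomial

/-- the Thue-Morse sequence -/
def tm (n : ℕ) : ℕ := (Nat.digits 2 n).sum % 2

/-- the Thue-Morse sequence along `P` -/
def u (P : ℤ[X]) (n : ℕ) : ℕ := tm (P.eval (n : ℤ)).toNat

/-- subword complexity -/
noncomputable def complexity (a : ℕ → ℕ) (k : ℕ) : ℕ :=
  Set.ncard {w : Fin k → ℕ | ∃ m : ℕ, ∀ i : Fin k, w i = a (m + i)}

theorem result (P : ℤ[X]) (hd : 3 ≤ P.natDegree) (hP : ∀ n : ℕ, 0 ≤ P.eval (n : ℤ)) (k : ℕ) :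
    complexity (u P) k = 2 ^ k := by
  have e : {w : Fin k → ℕ | ∃ m : ℕ, ∀ i : Fin k, w i = u P (m + i)} =
      ((Fintype.piFinset fun _ : Fin k => Finset.range 2 : Finset (Fin k → ℕ)) : Set _) := by
    ext w
    simp only [Set.mem_ofPred_eq, Finset.mem_coe, Fintype.mem_piFinset, Finset.mem_range]
    constructor
    · rintro ⟨m, hm⟩ i
      rw [hm i]
      exact Nat.mod_lt _ two_pos
    · intro h
      obtain ⟨m, hm⟩ := Pool.Agent.H12.TM.all_words P (by omega) hP k fun i => (w i : ZMod 2)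
      refine ⟨m, fun i => ?_⟩
      have h1 := (ZMod.natCast_eq_natCast_iff' _ _ 2).1 (hm i)
      rw [u, tm, h1, Nat.mod_eq_of_lt (h i)]
  rw [complexity, e, Set.ncard_coe_finset, Fintype.card_piFinset]
  simp

end Pool.Agent.Results.MP_b1aeef_nt.Maximal
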